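import Pool.Agent.TH793.SB.Defs

set_option autoImplicit false

/-! SB-4: multiplicity of local level-`j` sites -/

namespace Pool.Agent.TH49.J579

open Pool.Agent.TH793.SB

theorem mult (hU : OrgUnique) : Mult := by
  intro Y j S hS hd
  rcases Nat.lt_or_ge j 2 with hj | hj
  · have h1 : S.card ≤ 1 := by
      refine Finset.card_le_one.2 fun u hu v hv => funext fun i => ?_
      have h2 := hd u hu v hv i
      have h3 : (2 : ℤ) ^ j ≤ 2 ^ 1 := pow_le_pow_right₀ (by norm_num) (by omega)
      have h4 : |u i - v i| < 1 := by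
        have := abs_nonneg (u i - v i)
        omega
      have h5 := Int.abs_lt_one_iff.1 h4
      omega
    omega
  · obtain ⟨m, rfl⟩ : ∃ m, j = m + 2 := ⟨j - 2, by omega⟩
    have hp : (0 : ℤ) < 2 ^ m := by positivity
    have e1 : (2 : ℤ) ^ (m + 1) = 2 * 2 ^ m := by ring
    have e2 : (2 : ℤ) ^ (m + 2) = 4 * 2 ^ m := by ring
    have hS' : ∀ u, ∃ x c : Site, u ∈ S → (u ∈ cube x (2 ^ (m + 2)) ∧
        Org Y (cube x (2 ^ (m + 2))) c (m + 2) ∧ InP c (m + 2) u) := by
      intro u
      by_cases hu : u ∈ S
      · obtain ⟨x, c, h1, h2, h3, h4⟩ := hS u hu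
        exact ⟨x, c, fun _ => ⟨h1, h3, h4⟩⟩
      · exact ⟨0, 0, fun h => absurd h hu⟩
    choose x c hx using hS'
    let sig : Site → Lab := fun u i => decide (u i + 2 ^ (m + 1) < x u i + 2 ^ (m + 2))
    have hinj : Set.InjOn sig S := by
      intro u hu v hv huv
      obtain ⟨hu1, hu2, hu3⟩ := hx u hu
      obtain ⟨hv1, hv2, hv3⟩ := hx v hv
      have hs : ∀ i, (u i + 2 ^ (m + 1) < x u i + 2 ^ (m + 2)) ↔
          (v i + 2 ^ (m + 1) < x v i + 2 ^ (m + 2)) := by
        intro i
        have := congrFun huv i
        simpa only [sig, decide_eq_decide] using this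
      -- the common box
      let lo : Site := fun i => if u i + 2 ^ (m + 1) < x u i + 2 ^ (m + 2) then max (u i) (v i)
        else max (u i) (v i) - 2 ^ (m + 1)
      let hi : Site := fun i => if u i + 2 ^ (m + 1) < x u i + 2 ^ (m + 2) then
        min (u i) (v i) + 2 ^ (m + 1) + 1 else min (u i) (v i) + 1
      have hdist : ∀ i, max (u i) (v i) - min (u i) (v i) < 2 ^ m := by
        intro i
        have h2 := hd u hu v hv i
        rw [e2] at h2
        have h3 := max_sub_min_eq_abs (u i) (v i)
        have h4 : |v i - u i| = |u i - v i| := abs_sub_comm _ _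
        omega
      have hn : ∀ i, 2 ^ m ≤ (fun i => hi i - lo i) i := by
        intro i
        have := hdist i
        simp only [hi, lo]
        split_ifs <;> rw [e1] <;> linarith
      have key : ∀ i, ∀ w : ℤ, lo i ≤ w → w < lo i + (hi i - lo i) →
          (x u i ≤ w ∧ w < x u i + 2 ^ (m + 2)) ∧ (x v i ≤ w ∧ w < x v i + 2 ^ (m + 2)) := by
        intro i w h1 h2
        have a1 := hu1 i
        have a2 := hv1 i
        have a3 := hs i
        have a4 := le_max_left (u i) (v i)
        have a5 := le_max_right (u i) (v i)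
        have a6 := min_le_left (u i) (v i)
        have a7 := min_le_right (u i) (v i)
        simp only [lo, hi] at h1 h2
        by_cases h : u i + 2 ^ (m + 1) < x u i + 2 ^ (m + 2)
        · have h' := a3.1 h
          rw [if_pos h] at h1 h2
          rw [if_pos h] at h2
          rw [e1] at h2 h h'
          rw [e2] at h h' ⊢
          constructor <;> constructor <;> linarith
        · have h' : ¬ (v i + 2 ^ (m + 1) < x v i + 2 ^ (m + 2)) := fun hh => h (a3.2 hh)
          rw [if_neg h] at h1 h2
          rw [if_neg h] at h2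
          rw [not_lt] at h h'
          rw [e1] at h1 h h'
          rw [e2] at h h' a1 a2 ⊢
          constructor <;> constructor <;> linarith [a1.1, a1.2, a2.1, a2.2]
      have hsubu : box lo (fun i => hi i - lo i) ⊆ cube (x u) (2 ^ (m + 2)) :=
        fun w hw i => (key i (w i) (hw i).1 (hw i).2).1
      have hsubv : box lo (fun i => hi i - lo i) ⊆ cube (x v) (2 ^ (m + 2)) :=
        fun w hw i => (key i (w i) (hw i).1 (hw i).2).2
      have hou : Org Y (box lo (fun i => hi i - lo i)) (c u) m :=
        fun k hk d hd' w hw hl => hu2 k (by omega) d hd' w (hsubu hw) hl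
      have hov : Org Y (box lo (fun i => hi i - lo i)) (c v) m :=
        fun k hk d hd' w hw hl => hv2 k (by omega) d hd' w (hsubv hw) hl
      have hc := hU Y m lo _ hn (c u) (c v) hou hov
      funext i
      have b1 : (2 : ℤ) ^ m ∣ u i - c u i := (pow_dvd_pow 2 (by omega)).trans (hu3 i)
      have b2 : (2 : ℤ) ^ m ∣ v i - c v i := (pow_dvd_pow 2 (by omega)).trans (hv3 i)
      have b3 : (2 : ℤ) ^ m ∣ u i - v i := by
        have := dvd_sub (dvd_add b1 (hc i)) b2
        rwa [show u i - c u i + (c u i - c v i) - (v i - c v i) = u i - v i by ring] at this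
      have b4 : |u i - v i| < 2 ^ m := by
        have h2 := hd u hu v hv i
        rw [e2] at h2
        linarith
      have b5 := Int.eq_zero_of_abs_lt_dvd b3 b4
      linarith
    calc S.card ≤ (Finset.univ : Finset Lab).card :=
          Finset.card_le_card_of_injOn sig (fun _ _ => by simp) hinj
      _ = 8 := by simp [Lab]

end Pool.Agent.TH49.J579
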