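import Pool.Agent.TH793.SB.Basic

set_option autoImplicit false

/-! SB-10: determinism lemma -/

namespace Pool.Agent.TH49.J585

open Pool.Agent.TH793.SB

/-- labels around a site of `PK` -/
lemma labInfo {Y : Cfg} {K : ℕ} {w c : Site} (ho : Org Y (ball w (2 ^ K)) c K) (hi : InP c K w)
    {v : Site} (hv : ∀ i, |v i| < 2 ^ K) {k : ℕ} (hk : k < K) {d : Lab} (hd : d ≠ zl)
    (hl : Lev 0 k d v) : lab (Y (w + v)) = d ∧ okLev k (Y (w + v)) := by
  refine ho k hk d hd (w + v) ?_ ?_
  · intro i
    simp only [Pi.add_apply, add_sub_cancel_left]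
    exact (hv i).le
  · refine ⟨fun i => ?_, fun i => ?_⟩
    · have h1 := hl.1 i
      have h2 := (pow_dvd_pow 2 hk.le).trans (hi i)
      simp only [Pi.zero_apply, sub_zero] at h1
      have := dvd_add h2 h1
      rwa [show w i - c i + v i = (w + v) i - c i by simp only [Pi.add_apply]; ring] at this
    · rw [hl.2 i]
      have h2 : (2 : ℤ) ^ (k + 1) ∣ w i - c i := (pow_dvd_pow 2 hk).trans (hi i)
      simp only [Pi.zero_apply, sub_zero, not_iff_not, Pi.add_apply]
      rw [show w i + v i - c i = (w i - c i) + v i by ring]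
      exact ((Int.dvd_add_right h2)).symm

lemma lab_el {Y : Cfg} {K : ℕ} {w c : Site} (ho : Org Y (ball w (2 ^ K)) c K) (hi : InP c K w)
    {v : Site} (hv : ∀ i, |v i| < 2 ^ K) {i : Fin 3} {J : ℕ} (hJ : J ≤ K)
    (hl : ∀ l, l ≠ i → (2 : ℤ) ^ J ∣ v l) {m : ℤ} (hm : |m| < 2 ^ K) (hmJ : ¬ (2 : ℤ) ^ J ∣ m) :
    lab (Y (w + Function.update v i m)) = el i := by
  have h1 : ¬ InP 0 J (Function.update v i m) := by
    intro h
    have := h i
    simp only [Function.update_self, Pi.zero_apply, sub_zero] at this
    exact hmJ this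
  obtain ⟨k, hk, d, hd, hL⟩ := exists_lev h1
  have hd2 : d = el i := by
    have h2 : ∀ l, l ≠ i → d l = false := by
      intro l hli
      by_contra h3
      have h4 : d l = true := by
        cases hdl : d l
        · exact absurd hdl h3
        · rfl
      apply (hL.2 l).1 h4
      rw [Function.update_of_ne hli]
      simp only [Pi.zero_apply, sub_zero]
      exact (pow_dvd_pow 2 hk).trans (hl l hli)
    funext l
    by_cases hli : l = i
    · subst hli
      have : d l = true := by
        by_contra h3
        apply hd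
        funext l'
        by_cases h4 : l' = l
        · subst h4
          cases hdl : d l'
          · rfl
          · exact absurd hdl h3
        · exact h2 l' h4
      rw [this]
      simp [el]
    · rw [h2 l hli]
      simp [el, hli]
  have hv' : ∀ l, |Function.update v i m l| < 2 ^ K := by
    intro l
    by_cases hli : l = i
    · subst hli
      rwa [Function.update_self]
    · rw [Function.update_of_ne hli]
      exact hv l
  have := labInfo ho hi hv' (lt_of_lt_of_le hk hJ) hd hL
  rw [this.1, hd2]

lemma update_add_st (w v : Site) (i : Fin 3) (m : ℤ) :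
    w + Function.update v i m + st i 1 = w + Function.update v i (m + 1) := by
  funext l
  by_cases h : l = i
  · subst h
    simp [st_apply, add_assoc]
  · simp [st_apply, h]

/-- walking along a passing line -/
lemma walk {Y : Cfg} {K : ℕ} {w v : Site} (hf : Free Y (ball w (2 ^ K)))
    (hv : ∀ i, |v i| < 2 ^ K) {i : Fin 3} {s : ℤ} (hs : |s| < 2 ^ K) (n : ℕ)
    (hn : |s + n| < 2 ^ K)
    (h : ∀ m, s < m → m < s + n + 1 → lab (Y (w + Function.update v i m)) = el i) :
    In i (Y (w + Function.update v i (s + n + 1))) =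
      Out i (Y (w + Function.update v i s)) + (n + 1 : ℕ) := by
  induction n with
  | zero =>
    have hg : Good Y (w + Function.update v i s) := by
      apply hf
      intro l
      simp only [Pi.add_apply, add_sub_cancel_left]
      by_cases hl : l = i
      · subst hl
        rw [Function.update_self]
        exact hs.le
      · rw [Function.update_of_ne hl]
        exact (hv l).le
    have := hg i
    rw [update_add_st] at this
    simpa using this
  | succ n ih =>
    have hn' : |s + (n : ℤ)| < 2 ^ K := by
      rw [abs_lt] at hs hn ⊢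
      push_cast at hn
      constructor <;> linarith [hs.1, hn.2]
    have h1 := ih hn' (fun m h1 h2 => h m h1 (by push_cast; linarith))
    have hg : Good Y (w + Function.update v i (s + n + 1)) := by
      apply hf
      intro l
      simp only [Pi.add_apply, add_sub_cancel_left]
      by_cases hl : l = i
      · subst hl
        rw [Function.update_self]
        push_cast at hn
        rw [show s + (n : ℤ) + 1 = s + (n + 1) by ring]
        exact hn.le
      · rw [Function.update_of_ne hl]
        exact (hv l).le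
    have h2 := hg i
    rw [update_add_st, Pool.Agent.TH793.SB.pass (h _ (by have : (0:ℤ) ≤ n := Int.natCast_nonneg n; linarith) (by push_cast; linarith)), h1] at h2
    push_cast at h2 ⊢
    rw [show s + ((n : ℤ) + 1) + 1 = s + n + 1 + 1 by ring, h2]
    ring

/-- the tile at the stop of a line -/
lemma stop_letters {K : ℕ} {Y Y' : Cfg} {w w' c c' : Site}
    (ho : Org Y (ball w (2 ^ K)) c K) (hi : InP c K w)
    (ho' : Org Y' (ball w' (2 ^ K)) c' K) (hi' : InP c' K w') (hw : Y w = Y' w')
    {v : Site} (hv : ∀ i, |v i| < 2 ^ K) {i : Fin 3} {J : ℕ} (hJ : J ≤ K)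
    (hl : ∀ l, l ≠ i → (2 : ℤ) ^ J ∣ v l)
    (hJ2 : J < K → ∃ l, l ≠ i ∧ ¬ (2 : ℤ) ^ (J + 1) ∣ v l)
    {s : ℤ} (hs : |s| < 2 ^ K) (hsJ : (2 : ℤ) ^ J ∣ s) :
    In i (Y (w + Function.update v i s)) = In i (Y' (w' + Function.update v i s)) ∧
    Out i (Y (w + Function.update v i s)) = Out i (Y' (w' + Function.update v i s)) := by
  rcases hJ.lt_or_eq with hlt | heq
  · obtain ⟨l, hli, hl2⟩ := hJ2 hlt
    set z := Function.update v i s with hz
    have hz1 : ∀ a, |z a| < 2 ^ K := by
      intro a
      by_cases ha : a = i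
      · subst ha
        rwa [hz, Function.update_self]
      · rw [hz, Function.update_of_ne ha]
        exact hv a
    have hz2 : ∀ a, (2 : ℤ) ^ J ∣ z a := by
      intro a
      by_cases ha : a = i
      · subst ha
        rwa [hz, Function.update_self]
      · rw [hz, Function.update_of_ne ha]
        exact hl a ha
    classical
    let d : Lab := fun a => decide (¬ (2 : ℤ) ^ (J + 1) ∣ z a)
    have hdl : d l = true := by
      simp only [d, decide_eq_true_eq, hz, Function.update_of_ne hli]
      exact hl2
    have hd : d ≠ zl := by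
      intro h
      rw [h] at hdl
      simp [zl] at hdl
    have hdi : d ≠ el i := by
      intro h
      rw [h] at hdl
      simp [el, hli] at hdl
    have hL : Lev 0 J d z := by
      refine ⟨fun a => by simpa using hz2 a, fun a => ?_⟩
      simp only [d, decide_eq_true_eq, Pi.zero_apply, sub_zero]
    have h1 := labInfo ho hi hz1 hlt hd hL
    have h2 := labInfo ho' hi' hz1 hlt hd hL
    exact stop_eq (h1.1.trans h2.1.symm) h1.2 h2.2 (by rw [h1.1]; exact hdi)
  · subst heq
    have h1 : s = 0 := by
      obtain ⟨q, hq⟩ := hsJ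
      by_contra hne
      have hq0 : q ≠ 0 := by
        rintro rfl
        simp at hq
        exact hne hq
      have : (1 : ℤ) ≤ |q| := Int.one_le_abs hq0
      rw [hq, abs_mul, abs_pow, abs_two] at hs
      have hp : (0 : ℤ) < 2 ^ J := by positivity
      nlinarith
    have h2 : Function.update v i s = 0 := by
      funext a
      by_cases ha : a = i
      · subst ha
        rw [Function.update_self, h1]
        rfl
      · rw [Function.update_of_ne ha]
        obtain ⟨q, hq⟩ := hl a ha
        by_contra hne
        have hq0 : q ≠ 0 := by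
          rintro rfl
          simp at hq
          exact hne hq
        have : (1 : ℤ) ≤ |q| := Int.one_le_abs hq0
        have h3 := hv a
        rw [hq, abs_mul, abs_pow, abs_two] at h3
        have hp : (0 : ℤ) < 2 ^ J := by positivity
        nlinarith
    rw [h2, add_zero, add_zero, hw]
    exact ⟨rfl, rfl⟩

theorem determ (_hU : OrgUnique) : Determ := by
  intro K Y Y' w w' hw hw' hww v hv
  obtain ⟨c, hf, ho, hi⟩ := hw
  obtain ⟨c', hf', ho', hi'⟩ := hw'
  by_cases hv0 : v = 0
  · rw [hv0, add_zero, add_zero, hww]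
  have hnot : ¬ InP 0 K v := by
    intro h
    apply hv0
    funext a
    have h1 := h a
    simp only [Pi.zero_apply, sub_zero] at h1
    exact Int.eq_zero_of_abs_lt_dvd h1 (hv a)
  obtain ⟨k, hk, d, hd, hL⟩ := exists_lev hnot
  have h1 := labInfo ho hi hv hk hd hL
  have h2 := labInfo ho' hi' hv hk hd hL
  by_cases hde : ∀ i, d ≠ el i
  · exact act_eq (h1.1.trans h2.1.symm) h1.2 h2.2 (fun i => by rw [h1.1]; exact hde i)
  push Not at hde
  obtain ⟨i, rfl⟩ := hde
  refine pass_inj h1.1 h2.1 ?_
  -- divisibility facts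
  have hvi : ¬ (2 : ℤ) ^ (k + 1) ∣ v i := by
    have := (hL.2 i).1 (by simp [el])
    simpa using this
  have hvl : ∀ l, l ≠ i → (2 : ℤ) ^ (k + 1) ∣ v l := by
    intro l hli
    by_contra h
    have := (hL.2 l).2 (by simpa using h)
    simp [el, hli] at this
  -- the level of the line
  obtain ⟨J, hJ, hkJ, hJl, hJ2⟩ : ∃ J, J ≤ K ∧ k + 1 ≤ J ∧ (∀ l, l ≠ i → (2 : ℤ) ^ J ∣ v l) ∧
      (J < K → ∃ l, l ≠ i ∧ ¬ (2 : ℤ) ^ (J + 1) ∣ v l) := by
    classical
    by_cases hall : ∀ l, l ≠ i → (2 : ℤ) ^ K ∣ v l
    · exact ⟨K, le_rfl, hk, hall, fun h => absurd h (lt_irrefl _)⟩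
    · have hex : ∃ n, ¬ ∀ l, l ≠ i → (2 : ℤ) ^ n ∣ v l := ⟨K, hall⟩
      have hN := Nat.find_spec hex
      have hmin := @Nat.find_min _ _ hex
      set N := Nat.find hex with hNdef
      have hNK : N ≤ K := Nat.find_min' hex hall
      have hkN : k + 1 < N := by
        by_contra hcon
        push Not at hcon
        apply hN
        intro l hli
        exact (pow_dvd_pow 2 hcon).trans (hvl l hli)
      refine ⟨N - 1, by omega, by omega, ?_, ?_⟩
      · have := hmin (m := N - 1) (by omega)
        push Not at this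
        exact this
      · intro _
        rw [Nat.sub_add_cancel (by omega)]
        push Not at hN
        exact hN
  have hviJ : ¬ (2 : ℤ) ^ J ∣ v i := fun h => hvi ((pow_dvd_pow 2 hkJ).trans h)
  have hp : (0 : ℤ) < 2 ^ J := by positivity
  have hr0 : 0 ≤ v i % 2 ^ J := Int.emod_nonneg _ hp.ne'
  have hr1 : v i % 2 ^ J < 2 ^ J := Int.emod_lt_of_pos _ hp
  have hr2 : v i % 2 ^ J ≠ 0 := fun h => hviJ (Int.dvd_of_emod_eq_zero h)
  have hdiv : (2 : ℤ) ^ J ∣ v i - v i % 2 ^ J := Int.dvd_self_sub_emod
  have hvK := hv i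
  rw [abs_lt] at hvK
  have hupd : Function.update v i (v i) = v := Function.update_eq_self i v
  -- labels on the segment
  have hseg : ∀ (q : ℤ), (2 : ℤ) ^ J ∣ q → ∀ m, q < m → m < q + 2 ^ J → |m| < 2 ^ K →
      lab (Y (w + Function.update v i m)) = el i ∧
      lab (Y' (w' + Function.update v i m)) = el i := by
    intro q hq m h3 h4 h5
    have h6 : ¬ (2 : ℤ) ^ J ∣ m := by
      intro h
      have h7 := dvd_sub h hq
      have h8 := Int.eq_zero_of_abs_lt_dvd h7 (by rw [abs_lt]; constructor <;> linarith)
      linarith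
    exact ⟨lab_el ho hi hv hJ hJl h5 h6, lab_el ho' hi' hv hJ hJl h5 h6⟩
  rcases lt_trichotomy (v i) 0 with hneg | hzero | hpos
  · -- negative: the stop is above
    set t := v i - v i % 2 ^ J + 2 ^ J with ht
    have htd : (2 : ℤ) ^ J ∣ t := dvd_add hdiv (dvd_refl _)
    have ht0 : t ≤ 0 := by
      obtain ⟨q, hq⟩ := hdiv
      have h3 : (2 : ℤ) ^ J * q < 0 := by rw [← hq]; linarith [hr0.lt_of_ne (Ne.symm hr2)]
      have h4 : q < 0 := by
        by_contra h5
        push Not at h5
        have := mul_nonneg hp.le h5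
        linarith
      have h5 : q ≤ -1 := by omega
      rw [ht, hq]
      nlinarith
    have htK : |t| < 2 ^ K := by
      rw [abs_lt]
      constructor
      · linarith
      · have : (0 : ℤ) < 2 ^ K := by positivity
        linarith
    obtain ⟨n, hn⟩ : ∃ n : ℕ, t = v i + n + 1 := ⟨(t - v i - 1).toNat, by
      rw [Int.toNat_of_nonneg (by omega)]
      ring⟩
    have hnK : |v i + (n : ℤ)| < 2 ^ K := by
      rw [abs_lt]
      rw [abs_lt] at htK
      constructor
      · have : (0 : ℤ) ≤ n := Int.natCast_nonneg n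
        linarith
      · linarith
    have hsm : ∀ m, v i < m → m < v i + n + 1 → |m| < 2 ^ K := by
      intro m h3 h4
      rw [abs_lt] at htK ⊢
      constructor <;> linarith
    have e1 := walk (s := v i) hf hv (hv i) n hnK (fun m h3 h4 =>
      (hseg _ hdiv m (by linarith) (by linarith) (hsm m h3 h4)).1)
    have e2 := walk (s := v i) hf' hv (hv i) n hnK (fun m h3 h4 =>
      (hseg _ hdiv m (by linarith) (by linarith) (hsm m h3 h4)).2)
    rw [← hn, hupd] at e1 e2
    have e3 := (stop_letters ho hi ho' hi' hww hv hJ hJl hJ2 htK htd).1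
    rw [e1, e2] at e3
    have e4 := add_right_cancel e3
    rw [Pool.Agent.TH793.SB.pass h1.1, Pool.Agent.TH793.SB.pass h2.1] at e4
    exact e4
  · exact absurd (by rw [hzero]; exact dvd_zero _) hvi
  · -- positive: the stop is below
    set s := v i - v i % 2 ^ J with hs
    have hs0 : 0 ≤ s := by
      have h3 := Int.mul_ediv_add_emod (v i) (2 ^ J)
      have h4 := mul_nonneg hp.le (Int.ediv_nonneg hpos.le hp.le)
      linarith
    have hsv : s < v i := by
      have := hr0.lt_of_ne (Ne.symm hr2)
      linarith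
    have hsK : |s| < 2 ^ K := by
      rw [abs_lt]
      constructor <;> linarith
    obtain ⟨n, hn⟩ : ∃ n : ℕ, v i = s + n + 1 := ⟨(v i - s - 1).toNat, by
      rw [Int.toNat_of_nonneg (by omega)]
      ring⟩
    have hnK : |s + (n : ℤ)| < 2 ^ K := by
      rw [abs_lt]
      have : (0 : ℤ) ≤ n := Int.natCast_nonneg n
      constructor <;> linarith
    have hsm : ∀ m, s < m → m < s + n + 1 → |m| < 2 ^ K := by
      intro m h3 h4
      rw [abs_lt]
      constructor <;> linarith
    have e1 := walk (s := s) hf hv hsK n hnK (fun m h3 h4 =>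
      (hseg _ hdiv m (by linarith) (by linarith) (hsm m h3 h4)).1)
    have e2 := walk (s := s) hf' hv hsK n hnK (fun m h3 h4 =>
      (hseg _ hdiv m (by linarith) (by linarith) (hsm m h3 h4)).2)
    rw [← hn, hupd] at e1 e2
    have e3 := (stop_letters ho hi ho' hi' hww hv hJ hJl hJ2 hsK hdiv).2
    rw [e1, e2, e3]

end Pool.Agent.TH49.J585
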