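import Pool.Agent.TH563.Z.Kx
import Pool.Agent.W719.AX.FinA
import Pool.Agent.W613.AX.Win

/-!
# The window of the sum over `d`, base `y₀`

Job Z-WIN of project Z.  The proof follows `Pool/Agent/W613/AX/Win0.lean` and `Win.lean`, with the
base point `1 / 4` replaced by `y₀ ∈ [1 / 4, 3 / 8]`.
-/

set_option autoImplicit false
set_option linter.all false

namespace Pool.Agent.TH49.J765

open Finset Filter Topology Metric
open Pool.Agent.W711.HT hiding XX
open Pool.Agent.W719.AX Pool.Agent.TH563.Z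
open Pool.Agent.W613.AX (borel small small' exists_h)
open scoped Real

theorem conc (y₀ ρ c : ℝ) (Θ : ℂ → ℂ) (δs : ℝ) (hΘ : DifferentiableOn ℂ Θ (ball (y₀ : ℂ) ρ))
    (hδ : |δs - y₀| < ρ) (h0 : deriv Θ δs = 0)
    (h2 : ∀ x : ℝ, |x - y₀| < ρ → (deriv (deriv Θ) x).re ≤ -c) (x : ℝ)
    (hx : |x - y₀| < ρ) : (Θ x).re ≤ (Θ δs).re - c / 2 * (x - δs) ^ 2 := by
  have hball : ∀ t : ℝ, |t - y₀| < ρ → (t : ℂ) ∈ ball (y₀ : ℂ) ρ := by
    intro t ht
    rw [mem_ball, dist_eq_norm]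
    have e : (t : ℂ) - y₀ = ((t - y₀ : ℝ) : ℂ) := by push_cast; ring
    rw [e, Complex.norm_real, Real.norm_eq_abs]
    exact ht
  have hΘ' : DifferentiableOn ℂ (deriv Θ) (ball (y₀ : ℂ) ρ) := hΘ.deriv isOpen_ball
  have d1 : ∀ t : ℝ, |t - y₀| < ρ → HasDerivAt (fun t : ℝ => (Θ t).re) (deriv Θ t).re t :=
    fun t ht => ((hΘ.differentiableAt (isOpen_ball.mem_nhds (hball t ht))).hasDerivAt).real_of_complex
  have d2 : ∀ t : ℝ, |t - y₀| < ρ →
      HasDerivAt (fun t : ℝ => (deriv Θ t).re) (deriv (deriv Θ) t).re t :=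
    fun t ht => ((hΘ'.differentiableAt (isOpen_ball.mem_nhds (hball t ht))).hasDerivAt).real_of_complex
  set I : Set ℝ := Set.Ioo (y₀ - ρ) (y₀ + ρ) with hI
  have hIm : ∀ t : ℝ, t ∈ I ↔ |t - y₀| < ρ := by
    intro t
    rw [hI, Set.mem_Ioo, abs_lt]
    constructor
    · rintro ⟨h, h'⟩
      constructor <;> linarith
    · rintro ⟨h, h'⟩
      constructor <;> linarith
  set g : ℝ → ℝ := fun t => (deriv Θ t).re + c * (t - δs) with hg
  have dg : ∀ t ∈ I, HasDerivAt g ((deriv (deriv Θ) t).re + c) t := by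
    intro t ht
    have h1 := (d2 t ((hIm t).1 ht)).add (((hasDerivAt_id t).sub_const δs).const_mul c)
    rw [mul_one] at h1
    exact h1
  have hga : AntitoneOn g I := by
    refine antitoneOn_of_deriv_nonpos (convex_Ioo _ _)
      (fun t ht => (dg t ht).continuousAt.continuousWithinAt) ?_ ?_
    · intro t ht
      rw [interior_Ioo] at ht
      exact (dg t ht).differentiableAt.differentiableWithinAt
    · intro t ht
      rw [interior_Ioo] at ht
      rw [(dg t ht).deriv]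
      linarith [h2 t ((hIm t).1 ht)]
  have hg0 : g δs = 0 := by
    rw [hg]
    simp [h0]
  set G : ℝ → ℝ := fun t => (Θ t).re + c / 2 * (t - δs) ^ 2 with hG
  have dG : ∀ t ∈ I, HasDerivAt G (g t) t := by
    intro t ht
    have h1 := (d1 t ((hIm t).1 ht)).add
      ((((hasDerivAt_id t).sub_const δs).pow 2).const_mul (c / 2))
    have e : g t = (deriv Θ t).re + c / 2 * (((2 : ℕ) : ℝ) * (id t - δs) ^ (2 - 1) * 1) := by
      rw [hg]
      simp
      ring
    rw [e]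
    exact h1
  have hδI : δs ∈ I := (hIm _).2 hδ
  have hxI : x ∈ I := (hIm _).2 hx
  have hkey : G x ≤ G δs := by
    rcases le_total δs x with hle | hle
    · have hsub : Set.Icc δs x ⊆ I := fun t ht => ⟨hδI.1.trans_le ht.1, ht.2.trans_lt hxI.2⟩
      refine antitoneOn_of_deriv_nonpos (convex_Icc δs x)
        (fun t ht => (dG t (hsub ht)).continuousAt.continuousWithinAt) ?_ ?_
        (Set.left_mem_Icc.2 hle) (Set.right_mem_Icc.2 hle) hle
      · intro t ht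
        exact (dG t (hsub (interior_subset ht))).differentiableAt.differentiableWithinAt
      · intro t ht
        have ht' := interior_subset ht
        rw [(dG t (hsub ht')).deriv, ← hg0]
        exact hga hδI (hsub ht') ht'.1
    · have hsub : Set.Icc x δs ⊆ I := fun t ht => ⟨hxI.1.trans_le ht.1, ht.2.trans_lt hδI.2⟩
      refine monotoneOn_of_deriv_nonneg (convex_Icc x δs)
        (fun t ht => (dG t (hsub ht)).continuousAt.continuousWithinAt) ?_ ?_
        (Set.left_mem_Icc.2 hle) (Set.right_mem_Icc.2 hle) hle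
      · intro t ht
        exact (dG t (hsub (interior_subset ht))).differentiableAt.differentiableWithinAt
      · intro t ht
        have ht' := interior_subset ht
        rw [(dG t (hsub ht')).deriv, ← hg0]
        exact hga (hsub ht') hδI ht'.2
  have e1 : G x = (Θ x).re + c / 2 * (x - δs) ^ 2 := rfl
  have e2 : G δs = (Θ δs).re := by
    rw [hG]
    simp
  rw [e1, e2] at hkey
  linarith

theorem vert (y₀ ρ B : ℝ) (hρ : 0 < ρ) (Θ : ℂ → ℂ)
    (hΘ : DifferentiableOn ℂ Θ (ball (y₀ : ℂ) ρ)) (hB : ∀ δ ∈ ball (y₀ : ℂ) ρ, ‖Θ δ‖ ≤ B)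
    (him : ∀ x : ℝ, |x - y₀| < ρ → (Θ x).im = 0) (x y : ℝ) (hx : |x - y₀| ≤ 5 * ρ / 8)
    (hy : |y| ≤ ρ / 16) :
    (Θ (x + y * Complex.I)).re ≤ (Θ x).re + 64 * B / ρ ^ 2 * y ^ 2 := by
  have hΘ' : DifferentiableOn ℂ (deriv Θ) (ball (y₀ : ℂ) ρ) := hΘ.deriv isOpen_ball
  have c1 : ∀ z ∈ ball (y₀ : ℂ) (7 * ρ / 8), ‖deriv Θ z‖ ≤ 8 * B / ρ := by
    intro z hz
    rw [mem_ball] at hz
    have hsub : closedBall z (ρ / 8) ⊆ ball (y₀ : ℂ) ρ := by
      intro u hu
      rw [mem_closedBall] at hu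
      rw [mem_ball]
      have := dist_triangle u z (y₀ : ℂ)
      linarith
    have h1 := Complex.norm_deriv_le_of_forall_mem_sphere_norm_le (c := z) (R := ρ / 8) (C := B)
      (f := Θ) (by positivity)
      ((hΘ.mono (closure_ball_subset_closedBall.trans hsub)).diffContOnCl)
      (fun u hu => hB u (hsub (sphere_subset_closedBall hu)))
    refine h1.trans (le_of_eq ?_)
    field_simp
  have c2 : ∀ z ∈ ball (y₀ : ℂ) (3 * ρ / 4), ‖deriv (deriv Θ) z‖ ≤ 64 * B / ρ ^ 2 := by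
    intro z hz
    rw [mem_ball] at hz
    have hsub : closedBall z (ρ / 8) ⊆ ball (y₀ : ℂ) (7 * ρ / 8) := by
      intro u hu
      rw [mem_closedBall] at hu
      rw [mem_ball]
      have := dist_triangle u z (y₀ : ℂ)
      linarith
    have hsub2 : ball (y₀ : ℂ) (7 * ρ / 8) ⊆ ball (y₀ : ℂ) ρ := ball_subset_ball (by linarith)
    have h1 := Complex.norm_deriv_le_of_forall_mem_sphere_norm_le (c := z) (R := ρ / 8)
      (C := 8 * B / ρ) (f := deriv Θ) (by positivity)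
      ((hΘ'.mono (closure_ball_subset_closedBall.trans (hsub.trans hsub2))).diffContOnCl)
      (fun u hu => c1 u (hsub (sphere_subset_closedBall hu)))
    refine h1.trans (le_of_eq ?_)
    field_simp
    ring
  have hB0 : 0 ≤ 64 * B / ρ ^ 2 := (norm_nonneg _).trans (c2 (y₀ : ℂ) (mem_ball_self (by positivity)))
  have hmem : ∀ t : ℝ, |t| ≤ ρ / 16 → (x : ℂ) + t * Complex.I ∈ ball (y₀ : ℂ) (3 * ρ / 4) := by
    intro t ht
    rw [mem_ball, dist_eq_norm]
    have e : (x : ℂ) + t * Complex.I - y₀ = ((x - y₀ : ℝ) : ℂ) + (t : ℂ) * Complex.I := by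
      push_cast
      ring
    rw [e]
    refine (norm_add_le _ _).trans_lt ?_
    rw [norm_mul, Complex.norm_real, Complex.norm_real, Complex.norm_I, Real.norm_eq_abs,
      Real.norm_eq_abs, mul_one]
    linarith
  have hsub3 : ball (y₀ : ℂ) (3 * ρ / 4) ⊆ ball (y₀ : ℂ) ρ := ball_subset_ball (by linarith)
  -- the derivative is real on the real line
  have him' : (deriv Θ x).im = 0 := by
    have hxρ : |x - y₀| < ρ := by linarith
    have hxb : (x : ℂ) ∈ ball (y₀ : ℂ) ρ := by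
      have := hsub3 (hmem 0 (by rw [abs_zero]; positivity))
      simpa using this
    have h1 := (hΘ.differentiableAt (isOpen_ball.mem_nhds hxb)).hasDerivAt
    have h2 := (h1.const_mul (-Complex.I)).real_of_complex
    have h3 : (fun t : ℝ => (-Complex.I * Θ t).re) =ᶠ[𝓝 x] fun _ => (0 : ℝ) := by
      have h4 : ∀ᶠ t : ℝ in 𝓝 x, |t - y₀| < ρ := by
        have : Continuous fun t : ℝ => |t - y₀| := by fun_prop
        exact this.continuousAt.eventually (gt_mem_nhds hxρ)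
      filter_upwards [h4] with t ht
      have := him t ht
      simp [this]
    have h5 := (h2.congr_of_eventuallyEq h3.symm).unique (hasDerivAt_const x (0 : ℝ))
    simpa using h5
  have hdiff : ∀ t : ℝ, |t| ≤ |y| → |(deriv Θ (x + t * Complex.I)).im| ≤ 64 * B / ρ ^ 2 * |y| := by
    intro t ht
    have h1 := Convex.norm_image_sub_le_of_norm_deriv_le (f := deriv Θ)
      (s := ball (y₀ : ℂ) (3 * ρ / 4)) (C := 64 * B / ρ ^ 2) (x := (x : ℂ) + (0 : ℝ) * Complex.I)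
      (y := x + t * Complex.I)
      (fun z hz => hΘ'.differentiableAt (isOpen_ball.mem_nhds (hsub3 hz))) c2
      (convex_ball _ _) (hmem 0 (by rw [abs_zero]; positivity)) (hmem t (ht.trans hy))
    have e1 : ((x : ℂ) + t * Complex.I) - (x + (0 : ℝ) * Complex.I) = t * Complex.I := by
      push_cast
      ring
    rw [e1, norm_mul, Complex.norm_I, mul_one, Complex.norm_real, Real.norm_eq_abs] at h1
    have e2 : ((x : ℂ) + (0 : ℝ) * Complex.I) = x := by simp
    rw [e2] at h1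
    have h2 := (Complex.abs_im_le_norm (deriv Θ (x + t * Complex.I) - deriv Θ x)).trans h1
    rw [Complex.sub_im, him', sub_zero] at h2
    exact h2.trans (mul_le_mul_of_nonneg_left ht hB0)
  have hder : ∀ t : ℝ, |t| ≤ |y| → HasDerivAt (fun t : ℝ => (Θ (x + t * Complex.I)).re)
      (-(deriv Θ (x + t * Complex.I)).im) t := by
    intro t ht
    have h1 := (hΘ.differentiableAt (isOpen_ball.mem_nhds
      (hsub3 (hmem t (ht.trans hy))))).hasDerivAt
    have h2 : HasDerivAt (fun z : ℂ => (x : ℂ) + z * Complex.I) Complex.I (t : ℂ) := by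
      have := ((hasDerivAt_id (t : ℂ)).mul_const Complex.I).const_add (x : ℂ)
      simpa using this
    have h3 := (HasDerivAt.comp (t : ℂ) h1 h2).real_of_complex
    have e : (deriv Θ (x + t * Complex.I) * Complex.I).re =
        -(deriv Θ (x + t * Complex.I)).im := by simp
    rw [e] at h3
    exact h3
  have hmv := Convex.norm_image_sub_le_of_norm_hasDerivWithin_le
    (f := fun t : ℝ => (Θ (x + t * Complex.I)).re)
    (f' := fun t : ℝ => -(deriv Θ (x + t * Complex.I)).im) (s := closedBall (0 : ℝ) |y|)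
    (C := 64 * B / ρ ^ 2 * |y|) (x := 0) (y := y)
    (fun t ht => (hder t (by simpa using ht)).hasDerivWithinAt)
    (fun t ht => by
      rw [norm_neg, Real.norm_eq_abs]
      exact hdiff t (by simpa using ht))
    (convex_closedBall _ _) (by simp) (by simp)
  have h5 := (le_abs_self _).trans hmv
  simp only [Complex.ofReal_zero, zero_mul, add_zero, sub_zero, Real.norm_eq_abs] at h5
  have h6 : 64 * B / ρ ^ 2 * |y| * |y| = 64 * B / ρ ^ 2 * y ^ 2 := by
    rw [mul_assoc, ← sq, sq_abs]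
  rw [h6] at h5
  linarith

theorem window (hSI : S_SI) (y₀ : ℝ) (hyl : 1 / 4 ≤ y₀) (hyu : y₀ ≤ 3 / 8) (ρ c B CY h η : ℝ) (hρ : 0 < ρ) (hρ' : ρ ≤ 1 / 16) (hc : 0 < c)
    (hh : 0 < h) (hh1 : h ≤ ρ / 16) (hh2 : 64 * B / ρ ^ 2 * h ≤ π)
    (hh3 : 64 * B / ρ ^ 2 * h ^ 2 ≤ c / 4 * (ρ / 8) ^ 2) (hη : 0 < η) (hη' : η ≤ ρ / 8)
    (Θ : ℂ → ℂ) (δs : ℝ) (hΘ : DifferentiableOn ℂ Θ (ball (y₀ : ℂ) ρ))
    (hB : ∀ δ ∈ ball (y₀ : ℂ) ρ, ‖Θ δ‖ ≤ B) (hδ : |δs - y₀| ≤ ρ / 4)
    (h0 : deriv Θ δs = 0) (him : ∀ x : ℝ, |x - y₀| < ρ → (Θ x).im = 0)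
    (h2 : ∀ x : ℝ, |x - y₀| < ρ → (deriv (deriv Θ) x).re ≤ -c)
    (Y : ℂ → ℂ) (hY : DifferentiableOn ℂ Y (ball (y₀ : ℂ) ρ))
    (hCY : ∀ z ∈ ball (y₀ : ℂ) ρ, ‖Y z‖ ≤ CY) (N : ℕ) (hN1 : 1 ≤ N * h) (hN2 : 8 ≤ N * ρ) :
    ‖∑ d ∈ (range N).filter (fun d : ℕ => |(d : ℝ) / N - y₀| < ρ / 2),
        Complex.exp (N * (Θ ((d : ℂ) / N) - Θ δs) + Y ((d : ℂ) / N)) -
      N * ∫ x in (-η)..η, Complex.exp (N * (Θ (δs + x) - Θ δs)) * Complex.exp (Y (δs + x))‖ ≤
    4 * (Real.exp CY * (Real.exp (-(c / 4 * (ρ / 8) ^ 2) * N) + N * Real.exp (-(π * h) * N))) +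
      N * (Real.exp CY * Real.exp (-(c / 2 * η ^ 2) * N)) := by
  have hNρ : (0 : ℝ) < N := by
    by_contra hcon
    have h1 : (N : ℝ) ≤ 0 := by linarith
    have : (N : ℝ) * ρ ≤ 0 := mul_nonpos_of_nonpos_of_nonneg h1 hρ.le
    linarith
  have hNpos : 0 < N := by exact_mod_cast hNρ
  have hN128 : (128 : ℝ) ≤ N := by
    by_contra hcon
    push Not at hcon
    have : (N : ℝ) * ρ ≤ N * (1 / 16) := mul_le_mul_of_nonneg_left hρ' hNρ.le
    linarith
  have hinv : 1 / (2 * (N : ℝ)) ≤ ρ / 16 := by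
    rw [div_le_div_iff₀ (by positivity) (by positivity)]
    linarith
  have hB0 : 0 ≤ 64 * B / ρ ^ 2 := by
    have h1 : 0 ≤ B := (norm_nonneg _).trans (hB (y₀ : ℂ) (mem_ball_self hρ))
    positivity
  obtain ⟨hδ1, hδ2⟩ := abs_le.1 hδ
  have hδρ : |δs - y₀| < ρ := by linarith
  have himδ : (Θ δs).im = 0 := him δs hδρ
  have hball : ∀ x y : ℝ, |x - y₀| ≤ 5 * ρ / 8 → |y| ≤ ρ / 16 →
      (x : ℂ) + y * Complex.I ∈ ball (y₀ : ℂ) ρ := by
    intro x y hx hy
    rw [mem_ball, dist_eq_norm]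
    have e : (x : ℂ) + y * Complex.I - y₀ = ((x - y₀ : ℝ) : ℂ) + (y : ℂ) * Complex.I := by
      push_cast
      ring
    rw [e]
    refine (norm_add_le _ _).trans_lt ?_
    rw [norm_mul, Complex.norm_real, Complex.norm_real, Complex.norm_I, Real.norm_eq_abs,
      Real.norm_eq_abs, mul_one]
    linarith
  have hballr : ∀ x : ℝ, |x - y₀| ≤ 5 * ρ / 8 → (x : ℂ) ∈ ball (y₀ : ℂ) ρ := by
    intro x hx
    have := hball x 0 hx (by rw [abs_zero]; positivity)
    simpa using this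
  set F : ℂ → ℂ := fun z => Complex.exp (N * (Θ z - Θ δs) + Y z) with hF
  have hFd : ∀ z ∈ ball (y₀ : ℂ) ρ, DifferentiableAt ℂ F z := by
    intro z hz
    have h3 := hΘ.differentiableAt (isOpen_ball.mem_nhds hz)
    have h4 := hY.differentiableAt (isOpen_ball.mem_nhds hz)
    exact ((((h3.sub_const _).const_mul _).add h4)).cexp
  have hFn : ∀ z ∈ ball (y₀ : ℂ) ρ, ‖F z‖ ≤ Real.exp (N * ((Θ z).re - (Θ δs).re) + CY) := by
    intro z hz
    have e : ((N : ℂ) * (Θ z - Θ δs) + Y z).re = N * ((Θ z).re - (Θ δs).re) + (Y z).re := by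
      simp [Complex.mul_re]
    rw [hF]
    simp only [Complex.norm_exp, e]
    refine Real.exp_le_exp.2 ?_
    have := (Complex.re_le_norm (Y z)).trans (hCY z hz)
    linarith
  -- the end points
  set a : ℕ := ⌊(N : ℝ) * (y₀ - ρ / 2)⌋₊ + 1 with ha
  set b : ℕ := ⌈(N : ℝ) * (y₀ + ρ / 2)⌉₊ with hb
  have hp1 : (0 : ℝ) ≤ N * (y₀ - ρ / 2) := mul_nonneg hNρ.le (by linarith)
  have ha1 : (N : ℝ) * (y₀ - ρ / 2) < a := by
    rw [ha]
    push_cast
    exact Nat.lt_floor_add_one _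
  have ha2 : (a : ℝ) ≤ N * (y₀ - ρ / 2) + 1 := by
    rw [ha]
    push_cast
    linarith [Nat.floor_le hp1]
  have hb1 : (N : ℝ) * (y₀ + ρ / 2) ≤ b := Nat.le_ceil _
  have hb2 : (b : ℝ) < N * (y₀ + ρ / 2) + 1 :=
    Nat.ceil_lt_add_one (mul_nonneg hNρ.le (by linarith))
  have hset : (range N).filter (fun d : ℕ => |(d : ℝ) / N - y₀| < ρ / 2) = Ico a b := by
    ext d
    rw [mem_filter, mem_range, mem_Ico, abs_lt]
    have e1 : (-(ρ / 2) < (d : ℝ) / N - y₀) ↔ a ≤ d := by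
      rw [ha, Nat.succ_le_iff, Nat.floor_lt hp1]
      constructor
      · intro h3
        have h4 : y₀ - ρ / 2 < (d : ℝ) / N := by linarith
        rw [lt_div_iff₀ hNρ] at h4
        linarith
      · intro h3
        have h4 : y₀ - ρ / 2 < (d : ℝ) / N := by
          rw [lt_div_iff₀ hNρ]
          linarith
        linarith
    have e2 : ((d : ℝ) / N - y₀ < ρ / 2) ↔ d < b := by
      rw [hb, Nat.lt_ceil]
      constructor
      · intro h3
        have h4 : (d : ℝ) / N < y₀ + ρ / 2 := by linarith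
        rw [div_lt_iff₀ hNρ] at h4
        linarith
      · intro h3
        have h4 : (d : ℝ) / N < y₀ + ρ / 2 := by
          rw [div_lt_iff₀ hNρ]
          linarith
        linarith
    rw [e1, e2]
    constructor
    · rintro ⟨-, h3⟩
      exact h3
    · intro h3
      refine ⟨?_, h3⟩
      have h4 : (d : ℝ) < b := by exact_mod_cast h3.2
      have h5 := e2.2 h3.2
      have h6 : (d : ℝ) / N < 1 := by linarith
      rw [div_lt_one hNρ] at h6
      exact_mod_cast h6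
  have hNρ2 : (N : ℝ) * ρ ≤ N * (1 / 16) := mul_le_mul_of_nonneg_left hρ' hNρ.le
  have hab : a ≤ b := by
    have h3 : (a : ℝ) ≤ b := by
      have : (N : ℝ) * (y₀ + ρ / 2) = N * (y₀ - ρ / 2) + N * ρ := by ring
      linarith
    exact_mod_cast h3
  have hba : (b : ℝ) - a ≤ N := by
    have : (N : ℝ) * (y₀ + ρ / 2) = N * (y₀ - ρ / 2) + N * ρ := by ring
    linarith
  have hba0 : (0 : ℝ) ≤ (b : ℝ) - a := by
    have : (a : ℝ) ≤ b := by exact_mod_cast hab
    linarith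
  set xa : ℝ := ((a : ℝ) - 1 / 2) / N with hxa
  set xb : ℝ := ((b : ℝ) - 1 / 2) / N with hxb
  have hxa1 : y₀ - ρ / 2 - 1 / (2 * (N : ℝ)) ≤ xa := by
    rw [hxa, le_div_iff₀ hNρ]
    have e : (y₀ - ρ / 2 - 1 / (2 * (N : ℝ))) * N = N * (y₀ - ρ / 2) - 1 / 2 := by
      field_simp
    rw [e]
    linarith
  have hxa2 : xa ≤ y₀ - ρ / 2 + 1 / (2 * (N : ℝ)) := by
    rw [hxa, div_le_iff₀ hNρ]
    have e : (y₀ - ρ / 2 + 1 / (2 * (N : ℝ))) * N = N * (y₀ - ρ / 2) + 1 / 2 := by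
      field_simp
    rw [e]
    linarith
  have hxb1 : y₀ + ρ / 2 - 1 / (2 * (N : ℝ)) ≤ xb := by
    rw [hxb, le_div_iff₀ hNρ]
    have e : (y₀ + ρ / 2 - 1 / (2 * (N : ℝ))) * N = N * (y₀ + ρ / 2) - 1 / 2 := by
      field_simp
    rw [e]
    linarith
  have hxb2 : xb ≤ y₀ + ρ / 2 + 1 / (2 * (N : ℝ)) := by
    rw [hxb, div_le_iff₀ hNρ]
    have e : (y₀ + ρ / 2 + 1 / (2 * (N : ℝ))) * N = N * (y₀ + ρ / 2) + 1 / 2 := by
      field_simp
    rw [e]
    linarith
  have hxin : ∀ x : ℝ, xa ≤ x → x ≤ xb → |x - y₀| ≤ 5 * ρ / 8 := by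
    intro x h3 h4
    rw [abs_le]
    constructor <;> linarith
  have hxa3 : |xa - y₀| ≤ 5 * ρ / 8 := hxin xa le_rfl (by linarith)
  have hxb3 : |xb - y₀| ≤ 5 * ρ / 8 := hxin xb (by linarith) le_rfl
  -- the vertical sides
  have hvs : ∀ x : ℝ, |x - y₀| ≤ 5 * ρ / 8 → ρ / 8 ≤ |x - δs| → ∀ y : ℝ, |y| ≤ h →
      ‖F ((x : ℂ) + y * Complex.I)‖ ≤ Real.exp CY * Real.exp (-(c / 4 * (ρ / 8) ^ 2) * N) := by
    intro x hx hxd y hy
    have hy' := hy.trans hh1
    refine (hFn _ (hball x y hx hy')).trans ?_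
    rw [← Real.exp_add]
    refine Real.exp_le_exp.2 ?_
    have h3 := vert y₀ ρ B hρ Θ hΘ hB him x y hx hy'
    have h4 := conc y₀ ρ c Θ δs hΘ hδρ h0 h2 x (by linarith)
    have h5 : 64 * B / ρ ^ 2 * y ^ 2 ≤ 64 * B / ρ ^ 2 * h ^ 2 := by
      refine mul_le_mul_of_nonneg_left ?_ hB0
      rw [← sq_abs y]
      exact pow_le_pow_left₀ (abs_nonneg _) hy 2
    have h6 : (ρ / 8) ^ 2 ≤ (x - δs) ^ 2 := by
      rw [← sq_abs (x - δs)]
      exact pow_le_pow_left₀ (by positivity) hxd 2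
    have h7 : c / 2 * (ρ / 8) ^ 2 ≤ c / 2 * (x - δs) ^ 2 :=
      mul_le_mul_of_nonneg_left h6 (by positivity)
    have h8 : (Θ ((x : ℂ) + y * Complex.I)).re - (Θ δs).re ≤ -(c / 4 * (ρ / 8) ^ 2) := by
      linarith
    have h9 := mul_le_mul_of_nonneg_left h8 hNρ.le
    linarith
  -- the horizontal sides
  have hhs : ∀ x : ℝ, |x - y₀| ≤ 5 * ρ / 8 → ∀ y : ℝ, |y| = h →
      ‖F ((x : ℂ) + y * Complex.I)‖ ≤ Real.exp CY * Real.exp (π * h * N) := by
    intro x hx y hy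
    have hy' : |y| ≤ ρ / 16 := hy.le.trans hh1
    refine (hFn _ (hball x y hx hy')).trans ?_
    rw [← Real.exp_add]
    refine Real.exp_le_exp.2 ?_
    have h3 := vert y₀ ρ B hρ Θ hΘ hB him x y hx hy'
    have h4 := conc y₀ ρ c Θ δs hΘ hδρ h0 h2 x (by linarith)
    have h5 : 64 * B / ρ ^ 2 * y ^ 2 ≤ π * h := by
      rw [← sq_abs y, hy]
      calc 64 * B / ρ ^ 2 * h ^ 2 = 64 * B / ρ ^ 2 * h * h := by ring
        _ ≤ π * h := mul_le_mul_of_nonneg_right hh2 hh.le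
    have h6 : (0 : ℝ) ≤ c / 2 * (x - δs) ^ 2 := by positivity
    have h8 : (Θ ((x : ℂ) + y * Complex.I)).re - (Θ δs).re ≤ π * h := by linarith
    have h9 := mul_le_mul_of_nonneg_left h8 hNρ.le
    linarith
  have hsi := hSI F N a b h (Real.exp CY * Real.exp (-(c / 4 * (ρ / 8) ^ 2) * N))
    (Real.exp CY * Real.exp (π * h * N)) hNpos hab hN1
    (fun x y hx1 hx2 hy => hFd _ (hball x y (hxin x hx1 hx2) (hy.trans hh1)))
    (fun y hy => ⟨hvs xa hxa3 (by rw [abs_of_nonpos (by linarith)]; linarith) y hy,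
      hvs xb hxb3 (by rw [abs_of_nonneg (by linarith)]; linarith) y hy⟩)
    (fun x hx1 hx2 => by
      refine ⟨hhs x (hxin x hx1 hx2) h (abs_of_pos hh), ?_⟩
      have h3 := hhs x (hxin x hx1 hx2) (-h) (by rw [abs_neg, abs_of_pos hh])
      have e : (x : ℂ) + ((-h : ℝ) : ℂ) * Complex.I = x - h * Complex.I := by
        push_cast
        ring
      rwa [e] at h3)
  have hsi2 : 4 * (Real.exp CY * Real.exp (-(c / 4 * (ρ / 8) ^ 2) * N) +
      ((b : ℝ) - a) * (Real.exp CY * Real.exp (π * h * N)) * Real.exp (-(2 * π * N * h))) ≤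
      4 * (Real.exp CY * (Real.exp (-(c / 4 * (ρ / 8) ^ 2) * N) +
        N * Real.exp (-(π * h) * N))) := by
    have e : ((b : ℝ) - a) * (Real.exp CY * Real.exp (π * h * N)) * Real.exp (-(2 * π * N * h)) =
        ((b : ℝ) - a) * (Real.exp CY * Real.exp (-(π * h) * N)) := by
      rw [mul_assoc, mul_assoc, ← Real.exp_add]
      congr 3
      ring
    rw [e]
    have h3 : ((b : ℝ) - a) * (Real.exp CY * Real.exp (-(π * h) * N)) ≤
        N * (Real.exp CY * Real.exp (-(π * h) * N)) :=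
      mul_le_mul_of_nonneg_right hba (by positivity)
    have e5 : Real.exp CY * (Real.exp (-(c / 4 * (ρ / 8) ^ 2) * N) +
        N * Real.exp (-(π * h) * N)) = Real.exp CY * Real.exp (-(c / 4 * (ρ / 8) ^ 2) * N) +
        N * (Real.exp CY * Real.exp (-(π * h) * N)) := by ring
    rw [e5]
    exact mul_le_mul_of_nonneg_left (by linarith) (by norm_num)
  -- the integral
  have hcont : ∀ u v : ℝ, xa ≤ u → u ≤ xb → xa ≤ v → v ≤ xb →
      IntervalIntegrable (fun x : ℝ => F x) MeasureTheory.volume u v := by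
    intro u v hu1 hu2 hv1 hv2
    refine ContinuousOn.intervalIntegrable ?_
    intro x hx
    have hx' : xa ≤ x ∧ x ≤ xb := by
      rcases Set.mem_uIcc.1 hx with h3 | h3
      · exact ⟨hu1.trans h3.1, h3.2.trans hv2⟩
      · exact ⟨hv1.trans h3.1, h3.2.trans hu2⟩
    have h3 := (hFd _ (hballr x (hxin x hx'.1 hx'.2))).continuousAt
    exact (h3.comp (Complex.continuous_ofReal.continuousAt (x := x))).continuousWithinAt
  have hl1 : xa ≤ δs + -η := by linarith
  have hl2 : δs + η ≤ xb := by linarith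
  have hl3 : δs + -η ≤ δs + η := by linarith
  have hint : (∫ x in xa..xb, F x) = (∫ x in xa..(δs + -η), F x) +
      (∫ x in (δs + -η)..(δs + η), F x) + ∫ x in (δs + η)..xb, F x := by
    rw [intervalIntegral.integral_add_adjacent_intervals
      (hcont _ _ le_rfl (by linarith) hl1 (by linarith))
      (hcont _ _ hl1 (by linarith) (by linarith) hl2),
      intervalIntegral.integral_add_adjacent_intervals
      (hcont _ _ le_rfl (by linarith) (by linarith) hl2)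
      (hcont _ _ (by linarith) hl2 (by linarith) le_rfl)]
  have hmid : (∫ x in (δs + -η)..(δs + η), F x) =
      ∫ x in (-η)..η, Complex.exp (N * (Θ (δs + x) - Θ δs)) * Complex.exp (Y (δs + x)) := by
    rw [← intervalIntegral.integral_comp_add_left (fun x : ℝ => F x) δs]
    refine intervalIntegral.integral_congr fun x hx => ?_
    show F ((δs + x : ℝ) : ℂ) = _
    rw [hF, ← Complex.exp_add]
    push_cast
    rfl
  have hout : ∀ x : ℝ, xa ≤ x → x ≤ xb → η ≤ |x - δs| →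
      ‖F x‖ ≤ Real.exp CY * Real.exp (-(c / 2 * η ^ 2) * N) := by
    intro x hx1 hx2 hxd
    have hx := hxin x hx1 hx2
    refine (hFn _ (hballr x hx)).trans ?_
    rw [← Real.exp_add]
    refine Real.exp_le_exp.2 ?_
    have h4 := conc y₀ ρ c Θ δs hΘ hδρ h0 h2 x (by linarith)
    have h6 : η ^ 2 ≤ (x - δs) ^ 2 := by
      rw [← sq_abs (x - δs)]
      exact pow_le_pow_left₀ hη.le hxd 2
    have h7 : c / 2 * η ^ 2 ≤ c / 2 * (x - δs) ^ 2 :=
      mul_le_mul_of_nonneg_left h6 (by positivity)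
    have h8 : (Θ x).re - (Θ δs).re ≤ -(c / 2 * η ^ 2) := by linarith
    have h9 := mul_le_mul_of_nonneg_left h8 hNρ.le
    linarith
  have ho1 : ‖∫ x in xa..(δs + -η), F x‖ ≤
      Real.exp CY * Real.exp (-(c / 2 * η ^ 2) * N) * |δs + -η - xa| := by
    refine intervalIntegral.norm_integral_le_of_norm_le_const fun x hx => ?_
    rw [Set.uIoc_of_le hl1] at hx
    exact hout x hx.1.le (by linarith [hx.2]) (by rw [abs_of_nonpos] <;> linarith [hx.2])
  have ho2 : ‖∫ x in (δs + η)..xb, F x‖ ≤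
      Real.exp CY * Real.exp (-(c / 2 * η ^ 2) * N) * |xb - (δs + η)| := by
    refine intervalIntegral.norm_integral_le_of_norm_le_const fun x hx => ?_
    rw [Set.uIoc_of_le hl2] at hx
    exact hout x (by linarith [hx.1]) hx.2 (by rw [abs_of_nonneg] <;> linarith [hx.1])
  rw [abs_of_nonneg (by linarith)] at ho1 ho2
  have hlen : xb - xa ≤ 1 := by
    rw [hxa, hxb, ← sub_div, div_le_one hNρ]
    linarith
  set Q := Real.exp CY * Real.exp (-(c / 2 * η ^ 2) * N) with hQ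
  have hQ0 : 0 ≤ Q := by positivity
  have ho3 : ‖(∫ x in xa..xb, F x) - ∫ x in (δs + -η)..(δs + η), F x‖ ≤ Q := by
    rw [hint]
    have e : ∀ u v w : ℂ, u + v + w - v = u + w := fun u v w => by ring
    rw [e]
    refine (norm_add_le _ _).trans ((add_le_add ho1 ho2).trans ?_)
    have h3 : Q * (δs + -η - xa) + Q * (xb - (δs + η)) = Q * (xb - xa - 2 * η) := by ring
    rw [h3]
    calc Q * (xb - xa - 2 * η) ≤ Q * 1 := mul_le_mul_of_nonneg_left (by linarith) hQ0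
      _ = Q := mul_one Q
  rw [hset, ← hmid]
  have e3 : ∑ d ∈ Ico a b, F ((d : ℂ) / N) - N * ∫ x in (δs + -η)..(δs + η), F x =
      (∑ d ∈ Ico a b, F ((d : ℂ) / N) - N * ∫ x in xa..xb, F x) +
      N * ((∫ x in xa..xb, F x) - ∫ x in (δs + -η)..(δs + η), F x) := by ring
  have e4 : ‖(N : ℂ) * ((∫ x in xa..xb, F x) - ∫ x in (δs + -η)..(δs + η), F x)‖ ≤ N * Q := by
    rw [norm_mul, Complex.norm_natCast]
    exact mul_le_mul_of_nonneg_left ho3 hNρ.le
  show ‖∑ d ∈ Ico a b, F ((d : ℂ) / N) - N * ∫ x in (δs + -η)..(δs + η), F x‖ ≤ _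
  rw [e3]
  exact (norm_add_le _ _).trans (add_le_add (hsi.trans hsi2) e4)

theorem win (hSI : S_SI) (hLX : S_LX) (hEXP : S_UXEXP) : S_WINZ := by
  intro y₀ hyl hyu ρ c B hρ hρ' hc E S Θ δs w T hΘ hw hwb hT
  refine ⟨ρ / 2, by linarith, by linarith, ?_⟩
  obtain ⟨h, hh0, hh1, hh2, hh3⟩ := exists_h ρ c B hρ hc
  -- the Borel sum of the coefficients
  obtain ⟨κ, hY⟩ := borel (X := E × ℂ) w (S ×ˢ ball (y₀ : ℂ) ρ) (fun k => by
    obtain ⟨B', hB'⟩ := hwb k
    exact ⟨B', fun x hx => hB' x.1 hx.1 x.2 hx.2⟩)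
  set Y : ℕ → E × ℂ → ℂ := fun N x => ∑ k ∈ range (κ N), w k x / (N : ℂ) ^ k with hYdef
  have hYd : ∀ N, ∀ p ∈ S, DifferentiableOn ℂ (fun z => Y N (p, z)) (ball (y₀ : ℂ) ρ) := by
    intro N p hp
    rw [hYdef]
    refine DifferentiableOn.fun_sum fun k _ => ?_
    exact (hw k p hp).div_const _
  obtain ⟨b, hb, hb0⟩ := hEXP (E × ℂ) Y w _ hY
  have hbd : ∀ k, ∀ p ∈ S, DifferentiableOn ℂ (fun z => b k (p, z)) (ball (y₀ : ℂ) ρ) := by
    intro k p hp
    refine Pool.Agent.W303.AX.uxan (fun N z => Complex.exp (Y N (p, z))) (fun k z => b k (p, z))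
      (ball (y₀ : ℂ) ρ) isOpen_ball (Eventually.of_forall fun N => (hYd N p hp).cexp) ?_ k
    intro K
    obtain ⟨C, hC⟩ := hb K
    refine ⟨C, ?_⟩
    filter_upwards [hC] with N hN z hz
    exact hN (p, z) ⟨hp, hz⟩
  -- Laplace's method
  obtain ⟨δ', hδ'0, hδ'1, hL⟩ := hLX (ρ / 2) (2 * B) c (by linarith) hc
  set η := min δ' (ρ / 8) with hη
  have hη0 : 0 < η := lt_min hδ'0 (by linarith)
  have hη1 : η ≤ ρ / 8 := min_le_right _ _
  have hsh : ∀ p ∈ S, ∀ u ∈ ball (0 : ℂ) (ρ / 2), (δs p : ℂ) + u ∈ ball (y₀ : ℂ) ρ := by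
    intro p hp u hu
    rw [mem_ball, dist_zero_right] at hu
    rw [mem_ball, dist_eq_norm]
    have e : (δs p : ℂ) + u - y₀ = ((δs p - y₀ : ℝ) : ℂ) + u := by
      push_cast
      ring
    rw [e]
    refine (norm_add_le _ _).trans_lt ?_
    rw [Complex.norm_real, Real.norm_eq_abs]
    linarith [(hΘ p hp).2.2.1]
  have hmaps : ∀ p ∈ S, Set.MapsTo (fun u : ℂ => (δs p : ℂ) + u) (ball (0 : ℂ) (ρ / 2))
      (ball (y₀ : ℂ) ρ) := fun p hp u hu => hsh p hp u hu
  have hδin : ∀ p ∈ S, (δs p : ℂ) ∈ ball (y₀ : ℂ) ρ := by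
    intro p hp
    have := hsh p hp 0 (mem_ball_self (by linarith))
    rwa [add_zero] at this
  have hdq : ∀ p, deriv (fun u : ℂ => Θ p (δs p + u) - Θ p (δs p)) =
      fun u => deriv (Θ p) (δs p + u) := by
    intro p
    funext u
    rw [deriv_sub_const]
    exact deriv_comp_const_add _ _ _
  have hddq : ∀ p, deriv (deriv (fun u : ℂ => Θ p (δs p + u) - Θ p (δs p))) 0 =
      deriv (deriv (Θ p)) (δs p) := by
    intro p
    rw [hdq, deriv_comp_const_add, add_zero]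
  obtain ⟨A, hA, hA0⟩ := hL η hη0 (min_le_left _ _) E S
    (fun p u => Θ p (δs p + u) - Θ p (δs p)) (fun N x => Complex.exp (Y N (x.1, δs x.1 + x.2)))
    (fun k x => b k (x.1, δs x.1 + x.2))
    (fun p hp => by
      obtain ⟨g1, g2, g3, g4, g5, g6⟩ := hΘ p hp
      refine ⟨?_, ?_, by simp, ?_, ?_⟩
      · exact (g1.comp ((differentiable_id.const_add _).differentiableOn) (hmaps p hp)).sub_const _
      · intro u hu
        refine (norm_sub_le _ _).trans ?_
        have := g2 _ (hsh p hp u hu)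
        have := g2 _ (hδin p hp)
        linarith
      · rw [hdq]
        simpa using g4
      · rw [hddq]
        refine g6 (δs p) ?_
        linarith [g3])
    (Eventually.of_forall fun N p hp =>
      (((hYd N p hp).comp ((differentiable_id.const_add _).differentiableOn)
        (hmaps p hp)).cexp).continuousOn)
    (fun k p hp => by
      have h3 : DifferentiableOn ℂ (fun u : ℂ => (δs p : ℂ) + u) (ball (0 : ℂ) (ρ / 2)) :=
        (differentiable_id.const_add _).differentiableOn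
      exact (hbd k p hp).comp h3 (hmaps p hp))
    (by
      intro K
      obtain ⟨C, hC⟩ := hb K
      refine ⟨C, ?_⟩
      filter_upwards [hC] with N hN x hx
      exact hN (x.1, δs x.1 + x.2) ⟨hx.1, hsh x.1 hx.1 x.2 hx.2⟩)
  refine ⟨A, ?_, ?_⟩
  swap
  · intro p hp
    rw [hA0 p hp, hddq]
    simp only [add_zero]
    rw [hb0]
  -- the error
  obtain ⟨CY, hCY⟩ := hY 0
  intro K
  obtain ⟨CA, hCA⟩ := hA K
  obtain ⟨C1, hC1⟩ := hT (K + 1)
  obtain ⟨C2, hC2⟩ := hY (K + 1)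
  set C3 := |C1| + |C2| with hC3
  have hC30 : 0 ≤ C3 := by positivity
  refine ⟨CA + 2 * Real.exp CY * C3 + 9 * Real.exp CY, ?_⟩
  have hk1 : 0 < c / 4 * (ρ / 8) ^ 2 := by positivity
  have hk2 : 0 < π * h := by positivity
  have hk3 : 0 < c / 2 * η ^ 2 := by positivity
  have hlim : ∀ᶠ N : ℕ in atTop, C3 / (N : ℝ) ^ (K + 1) ≤ 1 := by
    obtain ⟨N1, hN1⟩ := exists_nat_ge C3
    filter_upwards [eventually_ge_atTop (max N1 1)] with N hN
    have h1 : (1 : ℝ) ≤ N := by exact_mod_cast (le_max_right _ _).trans hN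
    have h2 : (N1 : ℝ) ≤ N := by exact_mod_cast (le_max_left _ _).trans hN
    rw [div_le_one (by positivity)]
    calc C3 ≤ N := hN1.trans h2
      _ = (N : ℝ) ^ 1 := (pow_one _).symm
      _ ≤ (N : ℝ) ^ (K + 1) := pow_le_pow_right₀ h1 (by omega)
  have hNh : ∀ᶠ N : ℕ in atTop, 1 ≤ (N : ℝ) * h ∧ 8 ≤ (N : ℝ) * ρ := by
    have t1 : Tendsto (fun N : ℕ => (N : ℝ) * h) atTop atTop :=
      tendsto_natCast_atTop_atTop.atTop_mul_const hh0
    have t2 : Tendsto (fun N : ℕ => (N : ℝ) * ρ) atTop atTop :=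
      tendsto_natCast_atTop_atTop.atTop_mul_const hρ
    exact (t1.eventually_ge_atTop 1).and (t2.eventually_ge_atTop 8)
  filter_upwards [hCY, hCA, hC1, hC2, hlim, hNh, small' _ hk1 K, small _ hk2 K, small _ hk3 K,
    eventually_gt_atTop 0] with N gY gA gT gY2 glim gN gs1 gs2 gs3 gN0 p hp
  have hN0 : (0 : ℝ) < N := by exact_mod_cast gN0
  have hN1 : (1 : ℝ) ≤ N := by exact_mod_cast gN0
  obtain ⟨g1, g2, g3, g4, g5, g6⟩ := hΘ p hp
  have hδρ : |δs p - y₀| < ρ := by linarith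
  have hYb : ∀ z ∈ ball (y₀ : ℂ) ρ, ‖Y N (p, z)‖ ≤ CY := by
    intro z hz
    have := gY (p, z) ⟨hp, hz⟩
    simpa using this
  set W := (range N).filter (fun d : ℕ => |(d : ℝ) / N - y₀| < ρ / 2) with hW
  set F : ℕ → ℂ := fun d =>
    Complex.exp (N * (Θ p ((d : ℂ) / N) - Θ p (δs p)) + Y N (p, (d : ℂ) / N)) with hF
  have hwin := window hSI y₀ hyl hyu ρ c B CY h η hρ hρ' hc hh0 hh1 hh2 hh3 hη0 hη1 (Θ p) (δs p) g1 g2 g3 g4
    g5 g6 (fun z => Y N (p, z)) (hYd N p hp) hYb N gN.1 gN.2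
  -- the terms
  have hterm : ∀ d ∈ W, ‖Complex.exp (-(N * Θ p (δs p))) * T N d p - F d‖ ≤
      2 * Real.exp CY * C3 / (N : ℝ) ^ (K + 1) := by
    intro d hd
    rw [hW, mem_filter] at hd
    have hdρ : |(d : ℝ) / N - y₀| < ρ := by linarith [hd.2]
    obtain ⟨e, he, hTe⟩ := gT d hdρ p hp
    have hdin : (d : ℂ) / N ∈ ball (y₀ : ℂ) ρ := by
      rw [mem_ball, dist_eq_norm]
      have e1 : (d : ℂ) / N - y₀ = (((d : ℝ) / N - y₀ : ℝ) : ℂ) := by
        push_cast
        ring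
      rw [e1, Complex.norm_real, Real.norm_eq_abs]
      exact hdρ
    have hy := gY2 (p, (d : ℂ) / N) ⟨hp, hdin⟩
    set e' := e - (Y N (p, (d : ℂ) / N) -
      ∑ k ∈ range (K + 1), w k (p, (d : ℂ) / N) / (N : ℂ) ^ k) with he'
    have hn : ‖e'‖ ≤ C3 / (N : ℝ) ^ (K + 1) := by
      rw [he', hC3, add_div]
      refine (norm_sub_le _ _).trans (add_le_add (he.trans ?_) (hy.trans ?_))
      · gcongr
        exact le_abs_self _
      · gcongr
        exact le_abs_self _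
    have hfac : Complex.exp (-(N * Θ p (δs p))) * T N d p = F d * Complex.exp e' := by
      rw [hTe, hF, ← Complex.exp_add]
      show _ = Complex.exp (N * (Θ p ((d : ℂ) / N) - Θ p (δs p)) + Y N (p, (d : ℂ) / N)) * _
      rw [← Complex.exp_add, he']
      congr 1
      ring
    have hFn : ‖F d‖ ≤ Real.exp CY := by
      rw [hF]
      simp only [Complex.norm_exp]
      refine Real.exp_le_exp.2 ?_
      have e1 : ((N : ℂ) * (Θ p ((d : ℂ) / N) - Θ p (δs p)) + Y N (p, (d : ℂ) / N)).re =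
          N * ((Θ p ((d : ℂ) / N)).re - (Θ p (δs p)).re) + (Y N (p, (d : ℂ) / N)).re := by
        simp [Complex.mul_re]
      rw [e1]
      have h3 := conc y₀ ρ c (Θ p) (δs p) g1 hδρ g4 g6 ((d : ℝ) / N) hdρ
      push_cast at h3
      have h4 : (0 : ℝ) ≤ c / 2 * ((d : ℝ) / N - δs p) ^ 2 := by positivity
      have h5 : (Θ p ((d : ℂ) / N)).re - (Θ p (δs p)).re ≤ 0 := by linarith
      have h6 := mul_nonpos_of_nonneg_of_nonpos hN0.le h5
      have h7 := (Complex.re_le_norm _).trans (hYb _ hdin)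
      linarith
    have e2 : F d * Complex.exp e' - F d = F d * (Complex.exp e' - 1) := by ring
    rw [hfac, e2, norm_mul]
    have h8 := Complex.norm_exp_sub_one_le (hn.trans glim)
    calc ‖F d‖ * ‖Complex.exp e' - 1‖ ≤ Real.exp CY * (2 * (C3 / (N : ℝ) ^ (K + 1))) := by
          refine mul_le_mul hFn (h8.trans ?_) (norm_nonneg _) (Real.exp_pos _).le
          linarith
      _ = _ := by ring
  have hsum : ‖Complex.exp (-(N * Θ p (δs p))) * ∑ d ∈ W, T N d p - ∑ d ∈ W, F d‖ ≤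
      2 * Real.exp CY * C3 / (N : ℝ) ^ K := by
    rw [mul_sum, ← sum_sub_distrib]
    refine (norm_sum_le _ _).trans ((sum_le_sum hterm).trans ?_)
    rw [sum_const, nsmul_eq_mul]
    have hcard : (W.card : ℝ) ≤ N := by
      have h3 := card_filter_le (range N) (fun d : ℕ => |(d : ℝ) / N - y₀| < ρ / 2)
      rw [card_range] at h3
      exact_mod_cast h3
    calc (W.card : ℝ) * (2 * Real.exp CY * C3 / (N : ℝ) ^ (K + 1)) ≤
        N * (2 * Real.exp CY * C3 / (N : ℝ) ^ (K + 1)) := by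
          refine mul_le_mul_of_nonneg_right hcard (by positivity)
      _ = _ := by
          rw [pow_succ]
          field_simp
  set I := ∫ x in (-η)..η, Complex.exp (N * (Θ p (δs p + x) - Θ p (δs p))) *
    Complex.exp (Y N (p, δs p + x)) with hI
  have hwin2 : ‖∑ d ∈ W, F d - N * I‖ ≤ 9 * Real.exp CY / (N : ℝ) ^ K := by
    refine hwin.trans ?_
    have hE := Real.exp_pos CY
    have i1 := mul_le_mul_of_nonneg_left gs1 hE.le
    have i2 := mul_le_mul_of_nonneg_left gs2 hE.le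
    have i3 := mul_le_mul_of_nonneg_left gs3 hE.le
    have e1 : 9 * Real.exp CY / (N : ℝ) ^ K = 4 * (Real.exp CY * (1 / (N : ℝ) ^ K)) +
      4 * (Real.exp CY * (1 / (N : ℝ) ^ K)) + Real.exp CY * (1 / (N : ℝ) ^ K) := by ring
    have e2 : 4 * (Real.exp CY * (Real.exp (-(c / 4 * (ρ / 8) ^ 2) * N) +
        N * Real.exp (-(π * h) * N))) + N * (Real.exp CY * Real.exp (-(c / 2 * η ^ 2) * N)) =
        4 * (Real.exp CY * Real.exp (-(c / 4 * (ρ / 8) ^ 2) * N)) +
        4 * (Real.exp CY * (N * Real.exp (-(π * h) * N))) +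
        Real.exp CY * (N * Real.exp (-(c / 2 * η ^ 2) * N)) := by ring
    rw [e1, e2]
    linarith
  have hsq : Real.sqrt N ≠ 0 := (Real.sqrt_pos.2 hN0).ne'
  have hsqN : ((Real.sqrt N : ℝ) : ℂ)⁻¹ * (N : ℂ) = ((Real.sqrt N : ℝ) : ℂ) := by
    have h3 : ((Real.sqrt N : ℝ) : ℂ) * ((Real.sqrt N : ℝ) : ℂ) = (N : ℂ) := by
      rw [← Complex.ofReal_mul, Real.mul_self_sqrt hN0.le]
      simp
    rw [← h3, inv_mul_cancel_left₀]
    exact_mod_cast hsq
  have hsq1 : ‖((Real.sqrt N : ℝ) : ℂ)⁻¹‖ ≤ 1 := by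
    rw [norm_inv, Complex.norm_real, Real.norm_eq_abs, abs_of_nonneg (Real.sqrt_nonneg _)]
    exact inv_le_one_of_one_le₀ (Real.one_le_sqrt.2 hN1)
  have hA2 : ‖((Real.sqrt N : ℝ) : ℂ) * I - ∑ k ∈ range K, A k p / (N : ℂ) ^ k‖ ≤
      CA / (N : ℝ) ^ K := gA p hp
  have hfin : ((Real.sqrt N : ℝ) : ℂ)⁻¹ * Complex.exp (-(N * Θ p (δs p))) * ∑ d ∈ W, T N d p -
      ∑ k ∈ range K, A k p / (N : ℂ) ^ k =
      (((Real.sqrt N : ℝ) : ℂ) * I - ∑ k ∈ range K, A k p / (N : ℂ) ^ k) +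
      ((Real.sqrt N : ℝ) : ℂ)⁻¹ * (Complex.exp (-(N * Θ p (δs p))) * ∑ d ∈ W, T N d p -
        ∑ d ∈ W, F d) + ((Real.sqrt N : ℝ) : ℂ)⁻¹ * (∑ d ∈ W, F d - N * I) := by
    have e : ((Real.sqrt N : ℝ) : ℂ) * I = ((Real.sqrt N : ℝ) : ℂ)⁻¹ * ((N : ℂ) * I) := by
      rw [← mul_assoc, hsqN]
    rw [e]
    ring
  show ‖((Real.sqrt N : ℝ) : ℂ)⁻¹ * Complex.exp (-(N * Θ p (δs p))) * ∑ d ∈ W, T N d p -
      ∑ k ∈ range K, A k p / (N : ℂ) ^ k‖ ≤ _
  rw [hfin, add_div, add_div]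
  refine (norm_add_le _ _).trans (add_le_add ((norm_add_le _ _).trans (add_le_add hA2 ?_)) ?_)
  · rw [norm_mul]
    calc _ ≤ 1 * (2 * Real.exp CY * C3 / (N : ℝ) ^ K) :=
          mul_le_mul hsq1 hsum (norm_nonneg _) zero_le_one
      _ = _ := one_mul _
  · rw [norm_mul]
    calc _ ≤ 1 * (9 * Real.exp CY / (N : ℝ) ^ K) :=
          mul_le_mul hsq1 hwin2 (norm_nonneg _) zero_le_one
      _ = _ := one_mul _


theorem winz : Pool.Agent.TH563.Z.S_WINZ :=
  win Pool.Agent.W991.AX.si Pool.Agent.W719.AX.f_LX Pool.Agent.W719.AX.f_EXP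

end Pool.Agent.TH49.J765
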